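import Mathlib
import Pool.Agent.Y100.LAT.Core

/-!
# No class between `K₀` and the variety generated by `K` is finitely axiomatizable

`K` is the class of the sublattices of subspace lattices of vector spaces over commutative fields,
`K₀` the class of the sublattices of subspace lattices of rational vector spaces (`InRat`).

For a prime `p` let `L_p` be the (finite) lattice of submodules of `(ℤ/p²)³`.

* `L_p` violates the identity `ident p` in five variables (`p · ker p² = 0`, written with frames),
  which holds in the subspace lattices over all division rings.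
* Every nonprincipal ultraproduct of the lattices `L_p` lies in `K₀`: the ultraproduct of the
  rings `ℤ/p²` is an algebra over `ℚ`.

So every sentence that is true in `K₀` is true in almost all `L_p`, and no `L_p` is in the variety
generated by `K`.
-/

namespace Pool.Agent.Results.MP_622f37_al.IntervalNotFinitelyAxiomatizable

open FirstOrder Filter Pool.Agent.H686R3 Pool.Agent.Y100.LAT

/-- `L` belongs to the class `K`: there are a commutative field `F`, an `F`-vector space `V` (of any
dimension) and an injective map from `L` to the lattice of all `F`-subspaces of `V` which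
preserves binary joins and meets. -/
def InClass (L : Type) [Lattice L] : Prop :=
  ∃ (F : Type) (_ : Field F) (V : Type) (_ : AddCommGroup V) (_ : Module F V)
    (f : LatticeHom L (Submodule F V)), Function.Injective f

/-- `L` belongs to the class `K₀`: it embeds in the lattice of subspaces of a rational vector
space. -/
def InRat (L : Type) [Lattice L] : Prop :=
  ∃ (V : Type) (_ : AddCommGroup V) (_ : Module ℚ V)
    (f : LatticeHom L (Submodule ℚ V)), Function.Injective f

/-- `L` belongs to the quasivariety generated by `K`: it embeds in a direct product of subspace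
lattices of vector spaces, over possibly different fields. -/
def InProducts (L : Type) [Lattice L] : Prop :=
  ∃ (ι : Type) (F : ι → Type) (_ : ∀ i, Field (F i)) (V : ι → Type)
    (_ : ∀ i, AddCommGroup (V i)) (_ : ∀ i, Module (F i) (V i))
    (f : LatticeHom L (∀ i, Submodule (F i) (V i))), Function.Injective f

/-- `L` satisfies the identity `s = t` (`s`, `t` lattice terms in variables indexed by `ℕ`). -/
def SatisfiesIdentity (L : Type) [Lattice L] (e : latLang.Term ℕ × latLang.Term ℕ) : Prop :=
  ∀ v : ℕ → L, e.1.realize v = e.2.realize v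

/-- `L` satisfies the implication (quasi-identity): if all equations of `Γ` hold, then so does
`e`. The set `Γ` of premises may even be infinite. -/
def SatisfiesImplication (L : Type) [Lattice L] (Γ : Set (latLang.Term ℕ × latLang.Term ℕ))
    (e : latLang.Term ℕ × latLang.Term ℕ) : Prop :=
  ∀ v : ℕ → L, (∀ d ∈ Γ, d.1.realize v = d.2.realize v) → e.1.realize v = e.2.realize v

/-- `L` belongs to the variety generated by `K`: it satisfies every lattice identity which is true
in all members of `K`. -/
def InVariety (L : Type) [Lattice L] : Prop :=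
  ∀ e : latLang.Term ℕ × latLang.Term ℕ,
    (∀ (M : Type) [Lattice M], InClass M → SatisfiesIdentity M e) → SatisfiesIdentity L e

/-- a lattice homomorphism as a homomorphism of structures -/
def toHom {A B : Type} [Lattice A] [Lattice B] (f : LatticeHom A B) : A →[latLang] B where
  toFun := f
  map_fun' := by
    intro n g x
    cases g
    · exact map_sup f (x 0) (x 1)
    · exact map_inf f (x 0) (x 1)
  map_rel' := by
    intro n r
    exact Empty.elim r

theorem realize_hom {A B : Type} [Lattice A] [Lattice B] (f : LatticeHom A B)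
    (t : latLang.Term ℕ) (v : ℕ → A) : t.realize (fun n => f (v n)) = f (t.realize v) :=
  FirstOrder.Language.HomClass.realize_term (toHom f) (t := t) (v := v)

theorem inClass_of_inRat (L : Type) [Lattice L] (h : InRat L) : InClass L := by
  obtain ⟨V, hV1, hV2, f, hf⟩ := h
  exact ⟨ℚ, inferInstance, V, hV1, hV2, f, hf⟩

theorem inProducts_of_inClass (L : Type) [Lattice L] (h : InClass L) : InProducts L := by
  obtain ⟨F, hF, V, hV1, hV2, f, hf⟩ := h
  refine ⟨Unit, fun _ => F, fun _ => hF, fun _ => V, fun _ => hV1, fun _ => hV2,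
    { toFun := fun x _ => f x
      map_sup' := fun x y => funext fun _ => map_sup f x y
      map_inf' := fun x y => funext fun _ => map_inf f x y }, ?_⟩
  intro x y hxy
  exact hf (congrFun hxy ())

theorem inVariety_of_inProducts (L : Type) [Lattice L] (h : InProducts L) : InVariety L := by
  obtain ⟨ι, F, hF, V, hV1, hV2, f, hf⟩ := h
  intro e he v
  apply hf
  funext i
  let g : LatticeHom L (Submodule (F i) (V i)) :=
    { toFun := fun x => f x i
      map_sup' := fun x y => congrFun (map_sup f x y) i
      map_inf' := fun x y => congrFun (map_inf f x y) i }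
  have h1 := he (Submodule (F i) (V i))
    ⟨F i, hF i, V i, hV1 i, hV2 i, LatticeHom.id _, Function.injective_id⟩ (fun n => g (v n))
  rw [realize_hom g, realize_hom g] at h1
  exact h1

/-- the identity holds in `K` -/
theorem ident_holds (m : ℕ) (M : Type) [Lattice M] (h : InClass M) :
    SatisfiesIdentity M (ident m) := by
  obtain ⟨F, hF, V, hV1, hV2, f, hf⟩ := h
  intro v
  apply hf
  rw [← realize_hom f, ← realize_hom f, ident_iff]
  exact lhs_le_rhs _ _ _ _ _ _

theorem exists_pp {p : ℕ} (hp : p.Prime) : ∃ i, pp i = p :=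
  ⟨Nat.count Nat.Prime p, Nat.nth_count hp⟩

/-- violation of the identity for all primes -/
theorem not_ident {p : ℕ} (hp : p.Prime) :
    ¬ SatisfiesIdentity (Submodule (ZMod (p * p)) (Fin 3 → ZMod (p * p))) (ident p) := by
  obtain ⟨i, rfl⟩ := exists_pp hp
  intro h
  obtain ⟨v, hv⟩ := ident_fails i
  exact hv (h v)

theorem almost_all (σ : latLang.Sentence)
    (h : ∀ (M : Type) [Lattice M], InRat M → M ⊨ σ) :
    ∃ N : ℕ, ∀ p : ℕ, p.Prime → N ≤ p →
      Submodule (ZMod (p * p)) (Fin 3 → ZMod (p * p)) ⊨ σ := by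
  obtain ⟨i0, hi0⟩ := Filter.eventually_atTop.mp (coreQ σ fun M _ hM => h M hM)
  refine ⟨pp i0, fun p hp hle => ?_⟩
  obtain ⟨i, rfl⟩ := exists_pp hp
  exact hi0 i ((Nat.nth_le_nth Nat.infinite_setOfPred_prime).mp hle)

theorem interval (C : (L : Type) → [Lattice L] → Prop)
    (h0 : ∀ (L : Type) [Lattice L], InRat L → C L)
    (h1 : ∀ (L : Type) [Lattice L], C L → InVariety L) :
    ¬ ∃ Sg : Set latLang.Sentence, Sg.Finite ∧
      ∀ (L : Type) [Lattice L], C L ↔ ∀ φ ∈ Sg, L ⊨ φ := by
  rintro ⟨Sg, hfin, hSg⟩
  have h : ∀ φ ∈ Sg, ∀ᶠ i in (atTop : Filter ℕ), SS i ⊨ φ := fun φ hφ =>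
    coreQ φ fun M _ hM => (hSg M).mp (h0 M hM) φ hφ
  have h2 : ∀ᶠ i in (atTop : Filter ℕ), ∀ φ ∈ Sg, SS i ⊨ φ :=
    (Filter.eventually_all_finite hfin).mpr h
  obtain ⟨i, hi⟩ := h2.exists
  obtain ⟨v, hv⟩ := ident_fails i
  exact hv (h1 _ ((hSg (SS i)).mpr hi) (ident (pp i)) (fun M _ hM => ident_holds _ M hM) v)

theorem intervalId (C : (L : Type) → [Lattice L] → Prop)
    (h0 : ∀ (L : Type) [Lattice L], InRat L → C L)
    (h1 : ∀ (L : Type) [Lattice L], C L → InVariety L) :
    ¬ ∃ E : Set (latLang.Term ℕ × latLang.Term ℕ), E.Finite ∧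
      ∀ (L : Type) [Lattice L], C L ↔ ∀ e ∈ E, SatisfiesIdentity L e := by
  rintro ⟨E, hfin, hE⟩
  have h : ∀ e ∈ E, ∀ᶠ i in (atTop : Filter ℕ), SatisfiesIdentity (SS i) e := fun e he =>
    coreId e fun M _ hM => (hE M).mp (h0 M hM) e he
  have h2 : ∀ᶠ i in (atTop : Filter ℕ), ∀ e ∈ E, SatisfiesIdentity (SS i) e :=
    (Filter.eventually_all_finite hfin).mpr h
  obtain ⟨i, hi⟩ := h2.exists
  obtain ⟨v, hv⟩ := ident_fails i
  exact hv (h1 _ ((hE (SS i)).mpr hi) (ident (pp i)) (fun M _ hM => ident_holds _ M hM) v)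

theorem self_inClass (F : Type) [Field F] : InClass (Submodule F (Fin 3 → F)) :=
  ⟨F, inferInstance, Fin 3 → F, inferInstance, inferInstance, LatticeHom.id _,
    Function.injective_id⟩

theorem not_implications :
    ¬ ∃ Q : Set (Set (latLang.Term ℕ × latLang.Term ℕ) × (latLang.Term ℕ × latLang.Term ℕ)),
      ∀ (L : Type) [Lattice L], InClass L ↔ ∀ q ∈ Q, SatisfiesImplication L q.1 q.2 := by
  rintro ⟨Q, hQ⟩
  have h2 := (hQ (Submodule (ZMod 2) (Fin 3 → ZMod 2))).mp (self_inClass (ZMod 2))
  have h3 := (hQ (Submodule (ZMod 3) (Fin 3 → ZMod 3))).mp (self_inClass (ZMod 3))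
  have h : InClass (TwoField (ZMod 2) (ZMod 3)) := by
    refine (hQ (TwoField (ZMod 2) (ZMod 3))).mpr fun q hq v hv => ?_
    have e1 : ∀ t : latLang.Term ℕ,
        (t.realize v).1 = t.realize (fun n => (v n).1) := fun t =>
      (realize_hom (A := TwoField (ZMod 2) (ZMod 3)) (LatticeHom.fst) t v).symm
    have e2 : ∀ t : latLang.Term ℕ,
        (t.realize v).2 = t.realize (fun n => (v n).2) := fun t =>
      (realize_hom (A := TwoField (ZMod 2) (ZMod 3)) (LatticeHom.snd) t v).symm
    refine Prod.ext ?_ ?_
    · rw [e1, e1]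
      refine h2 q hq _ fun d hd => ?_
      rw [← e1, ← e1, hv d hd]
    · rw [e2, e2]
      refine h3 q hq _ fun d hd => ?_
      rw [← e2, ← e2, hv d hd]
  obtain ⟨F, hF, V, hV1, hV2, f, hf⟩ := h
  exact not_embeds_of_char (F := ZMod 2) (E := ZMod 3) 2 (by decide) (by decide) f hf

/-- **Main theorem.**

(1) No class `C` of lattices with `K₀ ⊆ C ⊆ (variety generated by K)` is specified by a finite set
of first-order sentences, or by a finite set of identities.

(2) `K₀ ⊆ K ⊆ SP(K) ⊆ (variety generated by K)`; so (1) applies to `K₀`, to `K`, to the quasivariety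
and to the variety generated by `K`.

(3) Quantitative form: a sentence that is true in `K₀` is true in the finite lattice of the
submodules of `(ℤ/p²)³` for all but finitely many primes `p`; but for every prime `p` this lattice
violates an identity which is true in `K`.

(4) The question: `K` is not specified by (i) any set of identities, and not even by any set of
implications between equations, (ii) any finite set of sentences, (iii) any finite set of
identities. -/
theorem result :
    (∀ C : (L : Type) → [Lattice L] → Prop,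
      (∀ (L : Type) [Lattice L], InRat L → C L) →
      (∀ (L : Type) [Lattice L], C L → InVariety L) →
      (¬ ∃ Sg : Set latLang.Sentence, Sg.Finite ∧
        ∀ (L : Type) [Lattice L], C L ↔ ∀ φ ∈ Sg, L ⊨ φ) ∧
      (¬ ∃ E : Set (latLang.Term ℕ × latLang.Term ℕ), E.Finite ∧
        ∀ (L : Type) [Lattice L], C L ↔ ∀ e ∈ E, SatisfiesIdentity L e)) ∧
    (∀ (L : Type) [Lattice L], (InRat L → InClass L) ∧ (InClass L → InProducts L) ∧
      (InProducts L → InVariety L)) ∧
    ((∀ σ : latLang.Sentence, (∀ (M : Type) [Lattice M], InRat M → M ⊨ σ) →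
      ∃ N : ℕ, ∀ p : ℕ, p.Prime → N ≤ p →
        Submodule (ZMod (p * p)) (Fin 3 → ZMod (p * p)) ⊨ σ) ∧
     (∀ p : ℕ, p.Prime → ∃ e : latLang.Term ℕ × latLang.Term ℕ,
      (∀ (M : Type) [Lattice M], InClass M → SatisfiesIdentity M e) ∧
      ¬ SatisfiesIdentity (Submodule (ZMod (p * p)) (Fin 3 → ZMod (p * p))) e)) ∧
    (¬ ∃ E : Set (latLang.Term ℕ × latLang.Term ℕ),
      ∀ (L : Type) [Lattice L], InClass L ↔ ∀ e ∈ E, SatisfiesIdentity L e) ∧
    (¬ ∃ Q : Set (Set (latLang.Term ℕ × latLang.Term ℕ) × (latLang.Term ℕ × latLang.Term ℕ)),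
      ∀ (L : Type) [Lattice L], InClass L ↔ ∀ q ∈ Q, SatisfiesImplication L q.1 q.2) ∧
    (¬ ∃ Sg : Set latLang.Sentence, Sg.Finite ∧
      ∀ (L : Type) [Lattice L], InClass L ↔ ∀ φ ∈ Sg, L ⊨ φ) ∧
    (¬ ∃ E : Set (latLang.Term ℕ × latLang.Term ℕ), E.Finite ∧
      ∀ (L : Type) [Lattice L], InClass L ↔ ∀ e ∈ E, SatisfiesIdentity L e) := by
  have hi : ¬ ∃ E : Set (latLang.Term ℕ × latLang.Term ℕ),
      ∀ (L : Type) [Lattice L], InClass L ↔ ∀ e ∈ E, SatisfiesIdentity L e := by
    rintro ⟨E, hE⟩
    refine not_implications ⟨(fun e => (∅, e)) '' E, fun L _ => (hE L).trans ?_⟩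
    constructor
    · rintro h _ ⟨e, he, rfl⟩ v -
      exact h e he v
    · intro h e he v
      exact h (∅, e) ⟨e, he, rfl⟩ v (fun d hd => absurd hd (Set.notMem_empty d))
  refine ⟨fun C h0 h1 => ⟨interval C h0 h1, intervalId C h0 h1⟩, fun L _ => ⟨inClass_of_inRat L,
    inProducts_of_inClass L, inVariety_of_inProducts L⟩,
    ⟨fun σ h => almost_all σ h, fun p hp => ⟨ident p, fun M _ hM => ident_holds p M hM,
      not_ident hp⟩⟩, hi, not_implications, ?_, fun ⟨E, _, hE⟩ => hi ⟨E, hE⟩⟩
  exact interval (fun L _ => InClass L) (fun L _ h => inClass_of_inRat L h)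
    (fun L _ h => inVariety_of_inProducts L (inProducts_of_inClass L h))

end Pool.Agent.Results.MP_622f37_al.IntervalNotFinitelyAxiomatizable
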