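import Pool.Agent.Y212.SL.Main

/-!
# Classes of lattices between six dimensional subspace lattices and subspace lattices over
division rings

No class between the class of all lattices isomorphic to a sublattice of `Sub(V)`, `V` a vector
space of dimension at most six over a commutative field, and the class of all lattices isomorphic
to a sublattice of `Sub(V)`, `V` a vector space of any dimension over a division ring, is the
intersection of a class closed under products of two lattices with a class given by finitely many
first-order sentences, even among the sublattices of subgroup lattices of abelian groups.
-/

set_option autoImplicit false

open Pool.Agent.Results.MP_622f37_al.NoneSpecifies Pool.Agent.Y212.SL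

/-- The four classes in the first lines (the third one is the class of the question) satisfy
`Between`; for every class satisfying `Between` the three statements of the question fail, and so
does the common generalisation `ByMixedConditions` of them. -/
theorem Pool.Agent.Results.MP_622f37_al.Sandwich.result :
    (Between (fun L _ => SixDim L) ∧ Between (fun L _ => FinDim L) ∧
      Between (fun L _ => InClass L) ∧ Between (fun L _ => DivLat L)) ∧
    ∀ C : (L : Type) → [Lattice L] → Prop, Between C →
      ¬ ByIdentities C ∧ ¬ ByFinitelyManySentences C ∧ ¬ ByFinitelyManyIdentities C ∧
        ¬ ByMixedConditions C :=
  ⟨⟨between_six, between_fin, between_field, between_div⟩,
    fun C hC => ⟨not_identities' C hC, not_finite_sentences' C hC, not_finite_identities' C hC,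
      not_mixed C hC⟩⟩
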